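import Mathlib
import Pool.Agent.H52.XR2.All

/-!
# Every convex body in Euclidean 3-space is verified by two X-rays

The answer to Q1 in full: yes for two X-rays (hence for three, and for every number `m ≥ 2`).
-/

open MeasureTheory Metric
open scoped RealInnerProductSpace ENNReal

namespace Pool.Agent.H63.XRSAllBodiesTwoXrays

/-- Euclidean 3-space. -/
abbrev E3 := EuclideanSpace ℝ (Fin 3)

/-- A convex body: a compact convex set with nonempty interior. -/
def IsConvexBody (K : Set E3) : Prop :=
  Convex ℝ K ∧ IsCompact K ∧ (interior K).Nonempty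

/-- The X-ray of `K` in the direction `u`: the function on the plane orthogonal to `u` whose value
at `x` is the length of the intersection of `K` with the line through `x` parallel to `u`. -/
noncomputable def xray (u : sphere (0 : E3) 1) (K : Set E3) : (ℝ ∙ (u : E3))ᗮ → ℝ≥0∞ :=
  fun x => volume {t : ℝ | (x : E3) + t • (u : E3) ∈ K}

/-- `K` is verified by its X-rays in the `m` directions `u i`: no other convex body has the same
`m` X-rays. -/
def Verifies {m : ℕ} (u : Fin m → sphere (0 : E3) 1) (K : Set E3) : Prop :=
  ∀ K' : Set E3, IsConvexBody K' → (∀ i, xray (u i) K' = xray (u i) K) → K' = K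

/-- Every convex body in Euclidean 3-space can be verified by two X-rays (in two independent
directions), and so by `m` X-rays for every `m ≥ 2`. -/
theorem result (K : Set E3) (hK : IsConvexBody K) :
    (∃ u : Fin 2 → sphere (0 : E3) 1, LinearIndependent ℝ ![(u 0 : E3), (u 1 : E3)] ∧
      Verifies u K) ∧
    ∀ m : ℕ, 2 ≤ m → ∃ u : Fin m → sphere (0 : E3) 1, Verifies u K := by
  obtain ⟨u, v, huv, hV⟩ := Pool.XR2.two_xrays K hK
  refine ⟨⟨![u, v], huv, fun K' hK' h => hV K' hK' (h 0) (h 1)⟩, fun m hm => ?_⟩
  refine ⟨fun i => if (i : ℕ) = 0 then u else v, fun K' hK' h => ?_⟩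
  have h0 : xray u K' = xray u K := by
    have := h ⟨0, by omega⟩
    simpa using this
  have h1 : xray v K' = xray v K := by
    have := h ⟨1, by omega⟩
    simpa using this
  exact hV K' hK' h0 h1

end Pool.Agent.H63.XRSAllBodiesTwoXrays
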