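import Mathlib

open MeasureTheory Metric
open scoped RealInnerProductSpace ENNReal

namespace Pool.Agent.H63.XRSNoTwoSuccessive

/-- Euclidean 3-space. -/
abbrev E3 := EuclideanSpace ℝ (Fin 3)

/-- A convex body: a compact convex set with nonempty interior. -/
def IsConvexBody (K : Set E3) : Prop :=
  Convex ℝ K ∧ IsCompact K ∧ (interior K).Nonempty

/-- An ellipsoid centred at the origin: the image of the closed unit ball under an invertible
linear map. -/
def IsEllipsoid (K : Set E3) : Prop :=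
  ∃ L : E3 ≃L[ℝ] E3, K = L '' closedBall (0 : E3) 1

/-- The X-ray of `K` in the direction `u`: the function on the plane orthogonal to `u` whose value
at `x` is the length of the intersection of `K` with the line through `x` parallel to `u`. -/
noncomputable def xray (u : sphere (0 : E3) 1) (K : Set E3) : (ℝ ∙ (u : E3))ᗮ → ℝ≥0∞ :=
  fun x => volume {t : ℝ | (x : E3) + t • (u : E3) ∈ K}

/-- The shear `x ↦ x - ⟪a, x⟫ u`. -/
noncomputable def shear (u a : E3) : E3 →L[ℝ] E3 :=
  ContinuousLinearMap.id ℝ E3 - (innerSL ℝ a).smulRight u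

lemma shear_apply (u a x : E3) : shear u a x = x - ⟪a, x⟫ • u := by
  simp [shear]

lemma shear_neg_comp {u a : E3} (h : ⟪a, u⟫ = 0) (x : E3) :
    shear u a (shear u (-a) x) = x := by
  simp [shear_apply, inner_add_right, inner_smul_right, h]

lemma shear_comp_neg {u a : E3} (h : ⟪a, u⟫ = 0) (x : E3) :
    shear u (-a) (shear u a x) = x := by
  have h' : ⟪-a, u⟫ = 0 := by simp [h]
  simpa using shear_neg_comp h' x

/-- The shear as an invertible map. -/
noncomputable def shearEquiv (u a : E3) (h : ⟪a, u⟫ = 0) : E3 ≃L[ℝ] E3 :=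
  ContinuousLinearEquiv.equivOfInverse (shear u (-a)) (shear u a)
    (fun x => shear_neg_comp h x) (fun x => shear_comp_neg h x)

/-- The sheared ball. -/
def body (u a : E3) : Set E3 := {x | ‖shear u a x‖ ≤ 1}

lemma body_eq {u a : E3} (h : ⟪a, u⟫ = 0) :
    body u a = (shearEquiv u a h) '' closedBall (0 : E3) 1 := by
  ext x
  constructor
  · intro hx
    refine ⟨shear u a x, by simpa [body] using hx, ?_⟩
    exact shear_comp_neg h x
  · rintro ⟨y, hy, rfl⟩
    have : shear u a (shearEquiv u a h y) = y := shear_neg_comp h y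
    simp only [body, Set.mem_ofPred_eq, this]
    simpa using hy

lemma isEllipsoid_body {u a : E3} (h : ⟪a, u⟫ = 0) : IsEllipsoid (body u a) :=
  ⟨shearEquiv u a h, body_eq h⟩

lemma isConvexBody_of_isEllipsoid {K : Set E3} (hK : IsEllipsoid K) : IsConvexBody K := by
  obtain ⟨L, rfl⟩ := hK
  refine ⟨(convex_closedBall (0 : E3) 1).linear_image L.toLinearMap,
    (isCompact_closedBall (0 : E3) 1).image L.continuous, ?_⟩
  have h1 : IsOpen (L '' ball (0 : E3) 1) := L.toHomeomorph.isOpenMap _ isOpen_ball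
  have h2 : L '' ball (0 : E3) 1 ⊆ L '' closedBall (0 : E3) 1 :=
    Set.image_mono ball_subset_closedBall
  have h3 := interior_maximal h2 h1
  exact ⟨L 0, h3 ⟨0, by simp, rfl⟩⟩

lemma body_ne {u a a' : E3} (hu : ‖u‖ = 1) (h : ⟪a, u⟫ = 0) (h' : ⟪a', u⟫ = 0) (hne : a ≠ a') :
    body u a' ≠ body u a := by
  intro heq
  have hd : a - a' ≠ 0 := sub_ne_zero.mpr hne
  have hdn : ‖a - a'‖ ≠ 0 := norm_ne_zero_iff.mpr hd
  set z : E3 := (‖a - a'‖)⁻¹ • (a - a') with hz
  have hz1 : ‖z‖ = 1 := by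
    rw [hz, norm_smul, norm_inv, norm_norm, inv_mul_cancel₀ hdn]
  have huz : ⟪u, z⟫ = 0 := by
    rw [hz, inner_smul_right, inner_sub_right, real_inner_comm, h, real_inner_comm, h']
    simp
  have hmem : shear u (-a) z ∈ body u a := by
    simp only [body, Set.mem_ofPred_eq, shear_neg_comp h]
    exact hz1.le
  rw [← heq] at hmem
  have h2 : shear u a' (shear u (-a) z) = z + ⟪a - a', z⟫ • u := by
    simp only [shear_apply, inner_sub_right, inner_smul_right, inner_neg_left, inner_sub_left, h']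
    module
  simp only [body, Set.mem_ofPred_eq, h2] at hmem
  have h3 : ‖z + ⟪a - a', z⟫ • u‖ ^ 2 = 1 + ⟪a - a', z⟫ ^ 2 := by
    rw [norm_add_sq_real, hz1, inner_smul_right, real_inner_comm u z, huz, norm_smul, hu]
    simp
  have h4 : ⟪a - a', z⟫ = ‖a - a'‖ := by
    rw [hz, inner_smul_right, real_inner_self_eq_norm_sq]
    field_simp
  have h5 : 0 < ‖a - a'‖ := norm_pos_iff.mpr hd
  rw [h4] at h3 hmem
  have h6 : ‖z + ‖a - a'‖ • u‖ ^ 2 ≤ 1 := by
    have := norm_nonneg (z + ‖a - a'‖ • u)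
    nlinarith
  nlinarith

/-- The length of a sublevel interval of a quadratic polynomial depends only on the leading
coefficient and the discriminant. -/
lemma volume_quadratic {A B C B' C' : ℝ} (hA : 0 < A) (h : B ^ 2 - A * C = B' ^ 2 - A * C') :
    volume {t : ℝ | A * t ^ 2 + 2 * B * t + C ≤ 1} =
      volume {t : ℝ | A * t ^ 2 + 2 * B' * t + C' ≤ 1} := by
  have hset : {t : ℝ | A * t ^ 2 + 2 * B * t + C ≤ 1} =
      (fun t => t + (B - B') / A) ⁻¹' {t : ℝ | A * t ^ 2 + 2 * B' * t + C' ≤ 1} := by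
    ext t
    simp only [Set.mem_ofPred_eq, Set.mem_preimage]
    have : A * (t + (B - B') / A) ^ 2 + 2 * B' * (t + (B - B') / A) + C' =
        A * t ^ 2 + 2 * B * t + C := by
      have h1 : A * (A * (t + (B - B') / A) ^ 2 + 2 * B' * (t + (B - B') / A) + C') =
          A * (A * t ^ 2 + 2 * B * t + C) := by
        field_simp
        linear_combination h
      exact mul_left_cancel₀ hA.ne' h1
    rw [this]
  rw [hset, measure_preimage_add_right]

lemma norm_shear_sq (u v a x : E3) (t : ℝ) :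
    ‖shear u a (x + t • v)‖ ^ 2 =
      ‖shear u a v‖ ^ 2 * t ^ 2 + 2 * ⟪shear u a x, shear u a v⟫ * t + ‖shear u a x‖ ^ 2 := by
  rw [map_add, map_smul, norm_add_sq_real, inner_smul_right, norm_smul, mul_pow, Real.norm_eq_abs,
    sq_abs]
  ring

lemma line_eq (u v a x : E3) :
    {t : ℝ | x + t • v ∈ body u a} =
      {t : ℝ | ‖shear u a v‖ ^ 2 * t ^ 2 + 2 * ⟪shear u a x, shear u a v⟫ * t +
        ‖shear u a x‖ ^ 2 ≤ 1} := by
  ext t
  simp only [body, Set.mem_ofPred_eq, ← norm_shear_sq]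
  constructor
  · intro h
    have := norm_nonneg (shear u a (x + t • v))
    nlinarith
  · intro h
    by_contra h'
    push Not at h'
    nlinarith

/-- Two sheared balls have the same X-ray in direction `v` as soon as the relevant quadratic
polynomials have the same leading coefficients and discriminants. -/
lemma volume_line_eq (u v a a' x : E3) (hpos : 0 < ‖shear u a v‖ ^ 2)
    (h1 : ‖shear u a v‖ ^ 2 = ‖shear u a' v‖ ^ 2)
    (h2 : ⟪shear u a x, shear u a v⟫ ^ 2 - ‖shear u a v‖ ^ 2 * ‖shear u a x‖ ^ 2 =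
      ⟪shear u a' x, shear u a' v⟫ ^ 2 - ‖shear u a' v‖ ^ 2 * ‖shear u a' x‖ ^ 2) :
    volume {t : ℝ | x + t • v ∈ body u a} = volume {t : ℝ | x + t • v ∈ body u a'} := by
  rw [line_eq, line_eq, ← h1]
  apply volume_quadratic hpos
  rw [h2, h1]

/-- `‖shear u a v‖^2` in terms of scalar products. -/
lemma norm_shear_sq' {u : E3} (hu : ‖u‖ = 1) (a v : E3) :
    ‖shear u a v‖ ^ 2 = ‖v‖ ^ 2 - 2 * ⟪a, v⟫ * ⟪v, u⟫ + ⟪a, v⟫ ^ 2 := by
  rw [shear_apply, norm_sub_sq_real, inner_smul_right, norm_smul, hu, mul_one, Real.norm_eq_abs,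
    sq_abs]
  ring

lemma inner_shear {u : E3} (hu : ‖u‖ = 1) (a x v : E3) :
    ⟪shear u a x, shear u a v⟫ =
      ⟪x, v⟫ - ⟪a, v⟫ * ⟪x, u⟫ - ⟪a, x⟫ * ⟪v, u⟫ + ⟪a, x⟫ * ⟪a, v⟫ := by
  simp only [shear_apply, inner_sub_left, inner_sub_right, inner_smul_left, inner_smul_right,
    real_inner_self_eq_norm_sq, hu]
  rw [real_inner_comm u v]
  simp
  ring

/-- For every pair of directions two sheared balls have the same X-ray in the second one. -/
lemma key (u v : E3) (hu : ‖u‖ = 1) (hv : ‖v‖ = 1) :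
    ∃ a a' : E3, ⟪a, u⟫ = 0 ∧ ⟪a', u⟫ = 0 ∧ a ≠ a' ∧
      ∀ x : E3, volume {t : ℝ | x + t • v ∈ body u a'} = volume {t : ℝ | x + t • v ∈ body u a} := by
  obtain ⟨β, hβ⟩ : ∃ β : ℝ, ⟪v, u⟫ = β := ⟨_, rfl⟩
  by_cases hρ : 1 - β ^ 2 = 0
  · -- `v = ± u`
    obtain ⟨e, he, heu⟩ : ∃ e : E3, e ≠ 0 ∧ ⟪e, u⟫ = 0 := by
      have hu0 : u ≠ 0 := by
        intro h0; rw [h0] at hu; simp at hu
      have : Fact (Module.finrank ℝ E3 = 2 + 1) := ⟨by simp⟩
      have hfr : Module.finrank ℝ (ℝ ∙ u)ᗮ = 2 := Submodule.finrank_orthogonal_span_singleton hu0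
      have : Nontrivial (ℝ ∙ u)ᗮ := Module.nontrivial_of_finrank_pos (R := ℝ) (by omega)
      obtain ⟨e, he⟩ := exists_ne (0 : (ℝ ∙ u)ᗮ)
      refine ⟨e, by simpa using he, ?_⟩
      have := e.2
      rw [Submodule.mem_orthogonal_singleton_iff_inner_left] at this
      exact this
    have hvu : v = β • u := by
      have h0 : ‖v - β • u‖ ^ 2 = 0 := by
        rw [norm_sub_sq_real, inner_smul_right, norm_smul, hu, hv, mul_one, Real.norm_eq_abs,
          sq_abs, hβ]
        linear_combination hρ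
      have h1 : ‖v - β • u‖ = 0 := by simpa using h0
      exact sub_eq_zero.mp (norm_eq_zero.mp h1)
    have hev : ⟪e, v⟫ = 0 := by rw [hvu, inner_smul_right, heu, mul_zero]
    refine ⟨e, 0, heu, by simp, he, ?_⟩
    intro x
    have hxv : ⟪x, v⟫ = β * ⟪x, u⟫ := by rw [hvu, inner_smul_right]
    have h0v : ⟪(0 : E3), v⟫ = 0 := inner_zero_left _
    have h0x : ⟪(0 : E3), x⟫ = 0 := inner_zero_left _
    apply volume_line_eq
    · rw [norm_shear_sq' hu, h0v, hv]; norm_num
    · rw [norm_shear_sq' hu, norm_shear_sq' hu, hev, h0v]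
    · rw [inner_shear hu, inner_shear hu, norm_shear_sq' hu, norm_shear_sq' hu, norm_shear_sq' hu,
        norm_shear_sq' hu, h0v, h0x, hev, hxv, hv, hβ]
      linear_combination (2 * ⟪x, u⟫ * ⟪e, x⟫ * (-1) + ⟪e, x⟫ ^ 2) * hρ
  · -- the main case
    obtain ⟨ρ, hρ_def⟩ : ∃ ρ : ℝ, ρ = 1 - β ^ 2 := ⟨_, rfl⟩
    rw [← hρ_def] at hρ
    obtain ⟨w, hw⟩ : ∃ w : E3, w = v - β • u := ⟨_, rfl⟩
    have hwu : ⟪w, u⟫ = 0 := by
      rw [hw, inner_sub_left, inner_smul_left, real_inner_self_eq_norm_sq, hu, hβ]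
      simp
    have hwv : ⟪w, v⟫ = ρ := by
      rw [hw, inner_sub_left, inner_smul_left, real_inner_self_eq_norm_sq, hv,
        real_inner_comm v u, hβ, hρ_def]
      simp
      ring
    have hρpos : 0 < ρ := by
      have h1 : |⟪v, u⟫| ≤ ‖v‖ * ‖u‖ := abs_real_inner_le_norm v u
      rw [hu, hv, mul_one, hβ] at h1
      have h2 : β ^ 2 ≤ 1 := by
        rw [← sq_abs]; nlinarith [abs_nonneg β]
      have h3 : 0 ≤ ρ := by rw [hρ_def]; linarith
      exact lt_of_le_of_ne h3 (Ne.symm hρ)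
    refine ⟨(β / ρ + 1) • w, (β / ρ - 1) • w, ?_, ?_, ?_, ?_⟩
    · rw [inner_smul_left, hwu, mul_zero]
    · rw [inner_smul_left, hwu, mul_zero]
    · intro h
      have h2 : ((β / ρ + 1) - (β / ρ - 1)) • w = 0 := by rw [sub_smul, h, sub_self]
      have h3 : w = 0 := by
        have h4 : (β / ρ + 1) - (β / ρ - 1) = 2 := by ring
        rw [h4] at h2
        simpa using h2
      rw [h3, inner_zero_left] at hwv
      exact hρpos.ne hwv
    · intro x
      have hwx : ⟪w, x⟫ = ⟪x, v⟫ - β * ⟪x, u⟫ := by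
        rw [hw, inner_sub_left, inner_smul_left, real_inner_comm x v, real_inner_comm x u]
        simp
      obtain ⟨ξ, hξ⟩ : ∃ ξ : ℝ, ⟪x, v⟫ = ξ := ⟨_, rfl⟩
      obtain ⟨η, hη⟩ : ∃ η : ℝ, ⟪x, u⟫ = η := ⟨_, rfl⟩
      rw [hξ, hη] at hwx
      have e1 : ρ * (β / ρ + 1) = β + ρ := by field_simp
      have e2 : ρ * (β / ρ - 1) = β - ρ := by field_simp
      obtain ⟨p, hp⟩ : ∃ p : ℝ, p = β / ρ + 1 := ⟨_, rfl⟩
      obtain ⟨q, hq⟩ : ∃ q : ℝ, q = β / ρ - 1 := ⟨_, rfl⟩
      rw [← hp] at e1 ⊢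
      rw [← hq] at e2 ⊢
      apply volume_line_eq
      · rw [norm_shear_sq' hu, inner_smul_left, hwv, hv, hβ, conj_trivial]
        have : (1 : ℝ) ^ 2 - 2 * (q * ρ) * β + (q * ρ) ^ 2 = ρ + ρ ^ 2 := by
          rw [mul_comm q ρ, e2, hρ_def]
          ring
        rw [this]
        positivity
      · rw [norm_shear_sq' hu, norm_shear_sq' hu, inner_smul_left, inner_smul_left, hwv, hv, hβ,
          conj_trivial, conj_trivial, mul_comm q ρ, mul_comm p ρ, e1, e2]
        rw [hρ_def]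
        ring
      · rw [inner_shear hu, inner_shear hu, norm_shear_sq' hu, norm_shear_sq' hu,
          norm_shear_sq' hu, norm_shear_sq' hu]
        simp only [inner_smul_left, hwv, hwx, hv, hξ, hη, hβ, conj_trivial]
        rw [hp, hq]
        field_simp
        rw [hρ_def]
        ring

/-- **Convex bodies in Euclidean 3-space cannot be successively determined by two X-rays.**
Whatever the first direction `u₁`, and whatever the rule `s` which chooses the second direction
from the first X-ray, there are two different convex bodies (in fact two ellipsoids centred at the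
origin) with the same first X-ray and the same X-ray in the second direction chosen by the rule. -/
theorem result (u₁ : sphere (0 : E3) 1)
    (s : ((ℝ ∙ (u₁ : E3))ᗮ → ℝ≥0∞) → sphere (0 : E3) 1) :
    ∃ K K' : Set E3, IsConvexBody K ∧ IsConvexBody K' ∧ IsEllipsoid K ∧ IsEllipsoid K' ∧
      K' ≠ K ∧ xray u₁ K' = xray u₁ K ∧
      xray (s (xray u₁ K)) K' = xray (s (xray u₁ K)) K := by
  have hu : ‖(u₁ : E3)‖ = 1 := norm_eq_of_mem_sphere u₁
  -- all bodies have the same first X-ray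
  have hfirst : ∀ a a' : E3, ⟪a, (u₁ : E3)⟫ = 0 → ⟪a', (u₁ : E3)⟫ = 0 →
      xray u₁ (body u₁ a) = xray u₁ (body u₁ a') := by
    intro a a' h h'
    funext x
    have hx : ⟪(x : E3), (u₁ : E3)⟫ = 0 := by
      have := x.2
      rw [Submodule.mem_orthogonal_singleton_iff_inner_left] at this
      exact this
    apply volume_line_eq
    · rw [norm_shear_sq' hu, h, hu]; norm_num
    · rw [norm_shear_sq' hu, norm_shear_sq' hu, h, h']
    · rw [inner_shear hu, inner_shear hu, norm_shear_sq' hu, norm_shear_sq' hu, norm_shear_sq' hu,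
        norm_shear_sq' hu, h, h', hx, real_inner_self_eq_norm_sq, hu]
      ring
  -- the second direction
  obtain ⟨v₁, hv₁⟩ : ∃ v₁ : sphere (0 : E3) 1, v₁ = s (xray u₁ (body u₁ 0)) := ⟨_, rfl⟩
  have hv : ‖(v₁ : E3)‖ = 1 := norm_eq_of_mem_sphere v₁
  obtain ⟨a, a', h, h', hne, hx⟩ := key u₁ v₁ hu hv
  refine ⟨body u₁ a, body u₁ a', isConvexBody_of_isEllipsoid (isEllipsoid_body h),
    isConvexBody_of_isEllipsoid (isEllipsoid_body h'), isEllipsoid_body h, isEllipsoid_body h',
    body_ne hu h h' hne, hfirst _ _ h' h, ?_⟩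
  have : xray u₁ (body u₁ a) = xray u₁ (body u₁ 0) := hfirst _ _ h (by simp)
  rw [this, ← hv₁]
  funext x
  exact hx x

end Pool.Agent.H63.XRSNoTwoSuccessive
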