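import Mathlib
import Pool.Agent.H45.XR.Final

open MeasureTheory Metric
open scoped RealInnerProductSpace ENNReal

namespace Pool.Agent.H63.XRSThreeXrays

/-- Euclidean 3-space. -/
abbrev E3 := EuclideanSpace ℝ (Fin 3)

/-- A convex body: a compact convex set with nonempty interior. -/
def IsConvexBody (K : Set E3) : Prop :=
  Convex ℝ K ∧ IsCompact K ∧ (interior K).Nonempty

/-- The X-ray of `K` in the direction `u`: the function on the plane orthogonal to `u` whose value
at `x` is the length of the intersection of `K` with the line through `x` parallel to `u`. -/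
noncomputable def xray (u : sphere (0 : E3) 1) (K : Set E3) : (ℝ ∙ (u : E3))ᗮ → ℝ≥0∞ :=
  fun x => volume {t : ℝ | (x : E3) + t • (u : E3) ∈ K}

/-- `K` is verified by its X-rays in the three directions `u 0`, `u 1`, `u 2`: no other convex
body has the same three X-rays. -/
def Verifies (u : Fin 3 → sphere (0 : E3) 1) (K : Set E3) : Prop :=
  ∀ K' : Set E3, IsConvexBody K' → (∀ i, xray (u i) K' = xray (u i) K) → K' = K

/-- Every convex body in Euclidean 3-space can be verified by three X-rays. Moreover the three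
directions can be taken orthogonal to any given direction `n` and arbitrarily close to any given
direction `w` orthogonal to `n`. -/
theorem result (K : Set E3) (hK : IsConvexBody K) :
    (∃ u : Fin 3 → sphere (0 : E3) 1, Verifies u K) ∧
    ∀ n w : sphere (0 : E3) 1, ⟪(n : E3), (w : E3)⟫ = 0 → ∀ ε > 0,
      ∃ u : Fin 3 → sphere (0 : E3) 1,
        (∀ i, ⟪(n : E3), (u i : E3)⟫ = 0 ∧ ‖(u i : E3) - (w : E3)‖ < ε) ∧ Verifies u K := by
  have key : ∀ n w : sphere (0 : E3) 1, ⟪(n : E3), (w : E3)⟫ = 0 → ∀ ε > 0,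
      ∃ u : Fin 3 → sphere (0 : E3) 1,
        (∀ i, ⟪(n : E3), (u i : E3)⟫ = 0 ∧ ‖(u i : E3) - (w : E3)‖ < ε) ∧ Verifies u K :=
    fun n w hnw ε hε => Pool.Agent.H45.XR.main n w hnw hε hK
  refine ⟨?_, key⟩
  have hn : ‖EuclideanSpace.single (2 : Fin 3) (1 : ℝ)‖ = 1 := by simp
  have hw : ‖EuclideanSpace.single (0 : Fin 3) (1 : ℝ)‖ = 1 := by simp
  obtain ⟨u, -, hu⟩ := key ⟨EuclideanSpace.single (2 : Fin 3) (1 : ℝ), by simp⟩
    ⟨EuclideanSpace.single (0 : Fin 3) (1 : ℝ), by simp⟩ (by simp [EuclideanSpace.inner_single_left])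
    1 one_pos
  exact ⟨u, hu⟩

end Pool.Agent.H63.XRSThreeXrays
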