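import Pool.Agent.H63.XRS.Defs
import Pool.Agent.H63.XRS.OldAllBodiesTwoXrays
import Pool.Agent.H63.XRS.OldNoTwoSuccessive
import Pool.Agent.H63.XRS.OldThreeXrays

/-!
# From `ℝ³` to all Euclidean spaces of dimension three
-/

set_option autoImplicit false

open MeasureTheory Metric Set
open scoped ENNReal RealInnerProductSpace

namespace XRS

abbrev E3 := EuclideanSpace ℝ (Fin 3)

section

variable {E F : Type} [NormedAddCommGroup E] [InnerProductSpace ℝ E] [NormedAddCommGroup F]
  [InnerProductSpace ℝ F] (e : E ≃ₗᵢ[ℝ] F)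

theorem image_eq (K : Set E) : e '' K = e.symm ⁻¹' K := by
  ext x
  constructor
  · rintro ⟨y, hy, rfl⟩
    simpa using hy
  · intro hx
    exact ⟨e.symm x, hx, by simp⟩

theorem body_image {K : Set E} (h : IsConvexBody K) : IsConvexBody (e '' K) := by
  obtain ⟨h1, h2, h3⟩ := h
  refine ⟨h1.linear_image e.toLinearEquiv.toLinearMap, h2.image e.continuous, ?_⟩
  have h4 : interior (e '' K) = e '' interior K := (e.toHomeomorph.image_interior K).symm
  rw [h4]
  exact h3.image e

theorem xray_image (u : E) (K : Set E) (x : E) : xray (e u) (e '' K) (e x) = xray u K x := by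
  unfold xray
  congr 1
  ext t
  simp only [mem_ofPred_eq]
  rw [← map_smul, ← map_add]
  exact e.injective.mem_set_image

theorem xray_image' (u : E) (K : Set E) (y : F) :
    xray (e u) (e '' K) y = xray u K (e.symm y) := by
  rw [← xray_image e, e.apply_symm_apply]

theorem xray_add (u : E) (K : Set E) (x : E) (r : ℝ) : xray u K (x + r • u) = xray u K x := by
  unfold xray
  have e1 : {t : ℝ | (x + r • u) + t • u ∈ K} = (fun t => t + r) ⁻¹' {t : ℝ | x + t • u ∈ K} := by
    ext t
    simp only [mem_ofPred_eq, mem_preimage]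
    rw [show x + r • u + t • u = x + (t + r) • u by module]
  rw [e1, measure_preimage_add_right]

theorem ellipsoid_image {K : Set E} (h : IsEllipsoid K) : IsEllipsoid (e '' K) := by
  obtain ⟨L, rfl⟩ := h
  refine ⟨(e.symm.toContinuousLinearEquiv.trans L).trans e.toContinuousLinearEquiv, ?_⟩
  have hb : e.symm '' closedBall (0 : F) 1 = closedBall (0 : E) 1 := by
    rw [e.symm.image_closedBall, map_zero]
  rw [← hb, image_image, image_image]
  rfl

theorem verifies_image {m : ℕ} {u : Fin m → E} {K : Set E} (h : Verifies u K) :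
    Verifies (fun i => e (u i)) (e '' K) := by
  intro K' hK' hx
  have h1 : e.symm '' K' = K := by
    apply h _ (body_image e.symm hK')
    intro i
    funext x
    have h2 := congrFun (hx i) (e x)
    rw [xray_image e] at h2
    rw [← h2]
    have h3 := xray_image e.symm (e (u i)) K' (e x)
    simpa using h3
  rw [← h1, image_image]
  simp

end

theorem mem_orth (u : sphere (0 : E3) 1) (x : E3) :
    x - ⟪(u : E3), x⟫ • (u : E3) ∈ (ℝ ∙ (u : E3))ᗮ := by
  have hu : ‖(u : E3)‖ = 1 := norm_eq_of_mem_sphere u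
  rw [Submodule.mem_orthogonal_singleton_iff_inner_right, inner_sub_right, inner_smul_right,
    real_inner_self_eq_norm_sq, hu]
  ring

/-- the X-ray on the whole space is determined by the X-ray on the orthogonal plane -/
theorem xray_eq_iff (u : sphere (0 : E3) 1) (K K' : Set E3) :
    xray (u : E3) K' = xray (u : E3) K ↔
      ∀ x : (ℝ ∙ (u : E3))ᗮ, volume {t : ℝ | (x : E3) + t • (u : E3) ∈ K'} =
        volume {t : ℝ | (x : E3) + t • (u : E3) ∈ K} := by
  constructor
  · intro h x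
    exact congrFun h (x : E3)
  · intro h
    funext x
    have h1 := h ⟨_, mem_orth u x⟩
    have h2 := xray_add (u : E3) K' (x - ⟪(u : E3), x⟫ • (u : E3)) ⟪(u : E3), x⟫
    have h3 := xray_add (u : E3) K (x - ⟪(u : E3), x⟫ • (u : E3)) ⟪(u : E3), x⟫
    rw [sub_add_cancel] at h2 h3
    rw [h2, h3]
    exact h1

section

variable (E : Type) [NormedAddCommGroup E] [InnerProductSpace ℝ E]

theorem exists_iso (hE : Module.finrank ℝ E = 3) : Nonempty (E3 ≃ₗᵢ[ℝ] E) := by
  have : FiniteDimensional ℝ E := Module.finite_of_finrank_pos (by omega)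
  exact ⟨((stdOrthonormalBasis ℝ E).reindex (finCongr hE)).repr.symm⟩

end

/-- All bodies: two X-rays. -/
theorem allBodies (E : Type) [NormedAddCommGroup E] [InnerProductSpace ℝ E]
    (hE : Module.finrank ℝ E = 3) (K : Set E) (hK : IsConvexBody K) :
    (∃ u v : E, ‖u‖ = 1 ∧ ‖v‖ = 1 ∧ LinearIndependent ℝ ![u, v] ∧ Verifies ![u, v] K) ∧
    ∀ m : ℕ, 2 ≤ m → ∃ u : Fin m → E, (∀ i, ‖u i‖ = 1) ∧ Verifies u K := by
  obtain ⟨e⟩ := exists_iso E hE
  have hK3 : IsConvexBody (e.symm '' K) := body_image e.symm hK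
  have key : ∀ (m : ℕ) (u : Fin m → sphere (0 : E3) 1),
      Pool.Agent.H63.XRSAllBodiesTwoXrays.Verifies u (e.symm '' K) →
      Verifies (fun i => e (u i : E3)) K := by
    intro m u hu
    have h1 : Verifies (fun i => (u i : E3)) (e.symm '' K) := by
      intro K' hK' hx
      apply hu K' hK'
      intro i
      funext x
      exact (xray_eq_iff (u i) _ _).1 (hx i) x
    have h2 := verifies_image e h1
    rw [image_image] at h2
    simpa using h2
  obtain ⟨⟨u, hu1, hu2⟩, h3⟩ := Pool.Agent.H63.XRSAllBodiesTwoXrays.result (e.symm '' K) hK3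
  constructor
  · refine ⟨e (u 0 : E3), e (u 1 : E3), ?_, ?_, ?_, ?_⟩
    · rw [e.norm_map]
      exact norm_eq_of_mem_sphere _
    · rw [e.norm_map]
      exact norm_eq_of_mem_sphere _
    · have h := hu1.map' e.toLinearEquiv.toLinearMap (by
        rw [LinearMap.ker_eq_bot]
        exact e.injective)
      have e1 : (⇑(e.toLinearEquiv.toLinearMap) ∘ ![(u 0 : E3), (u 1 : E3)]) =
          ![e (u 0 : E3), e (u 1 : E3)] := by
        funext i
        fin_cases i <;> rfl
      rw [e1] at h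
      exact h
    · have h := key 2 u hu2
      have e1 : (fun i => e (u i : E3)) = ![e (u 0 : E3), e (u 1 : E3)] := by
        funext i
        fin_cases i <;> rfl
      rw [e1] at h
      exact h
  · intro m hm
    obtain ⟨u, hu⟩ := h3 m hm
    refine ⟨fun i => e (u i : E3), fun i => ?_, key m u hu⟩
    rw [e.norm_map]
    exact norm_eq_of_mem_sphere _

/-- Three X-rays. -/
theorem three (E : Type) [NormedAddCommGroup E] [InnerProductSpace ℝ E]
    (hE : Module.finrank ℝ E = 3) (K : Set E) (hK : IsConvexBody K) :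
    (∃ u : Fin 3 → E, (∀ i, ‖u i‖ = 1) ∧ Verifies u K) ∧
    ∀ n w : E, ‖n‖ = 1 → ‖w‖ = 1 → inner ℝ n w = 0 → ∀ ε > 0,
      ∃ u : Fin 3 → E, (∀ i, ‖u i‖ = 1 ∧ inner ℝ n (u i) = 0 ∧ ‖u i - w‖ < ε) ∧
        Verifies u K := by
  obtain ⟨e⟩ := exists_iso E hE
  have hK3 : IsConvexBody (e.symm '' K) := body_image e.symm hK
  have key : ∀ (u : Fin 3 → sphere (0 : E3) 1),
      Pool.Agent.H63.XRSThreeXrays.Verifies u (e.symm '' K) →
      Verifies (fun i => e (u i : E3)) K := by
    intro u hu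
    have h1 : Verifies (fun i => (u i : E3)) (e.symm '' K) := by
      intro K' hK' hx
      apply hu K' hK'
      intro i
      funext x
      exact (xray_eq_iff (u i) _ _).1 (hx i) x
    have h2 := verifies_image e h1
    rw [image_image] at h2
    simpa using h2
  obtain ⟨⟨u, hu⟩, h3⟩ := Pool.Agent.H63.XRSThreeXrays.result (e.symm '' K) hK3
  constructor
  · refine ⟨fun i => e (u i : E3), fun i => ?_, key u hu⟩
    rw [e.norm_map]
    exact norm_eq_of_mem_sphere _
  · intro n w hn hw hnw ε hε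
    obtain ⟨u, hu1, hu2⟩ := h3 ⟨e.symm n, by simp [hn]⟩ ⟨e.symm w, by simp [hw]⟩
      (by
        show ⟪e.symm n, e.symm w⟫ = 0
        rw [e.symm.inner_map_map]
        exact hnw) ε hε
    refine ⟨fun i => e (u i : E3), fun i => ⟨?_, ?_, ?_⟩, key u hu2⟩
    · rw [e.norm_map]
      exact norm_eq_of_mem_sphere _
    · have h := (hu1 i).1
      have h2 := e.inner_map_map (e.symm n) (u i : E3)
      rw [e.apply_symm_apply] at h2
      rw [h2]
      exact h
    · have h := (hu1 i).2
      have h2 := e.norm_map ((u i : E3) - e.symm w)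
      rw [map_sub, e.apply_symm_apply] at h2
      rw [h2]
      exact h

/-- No two successive X-rays. -/
theorem noTwo (E : Type) [NormedAddCommGroup E] [InnerProductSpace ℝ E]
    (hE : Module.finrank ℝ E = 3) (u₁ : E) (hu₁ : ‖u₁‖ = 1) (s : (E → ℝ≥0∞) → E)
    (hs : ∀ f, ‖s f‖ = 1) :
    ∃ K K' : Set E, IsConvexBody K ∧ IsConvexBody K' ∧ IsEllipsoid K ∧ IsEllipsoid K' ∧
      K' ≠ K ∧ xray u₁ K' = xray u₁ K ∧
      xray (s (xray u₁ K)) K' = xray (s (xray u₁ K)) K := by
  obtain ⟨e⟩ := exists_iso E hE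
  -- the direction and the rule in `ℝ³`
  let v₁ : sphere (0 : E3) 1 := ⟨e.symm u₁, by simp [hu₁]⟩
  have hv₁ : e (v₁ : E3) = u₁ := e.apply_symm_apply u₁
  let P : E3 → (ℝ ∙ (v₁ : E3))ᗮ := fun x => ⟨x - ⟪(v₁ : E3), x⟫ • (v₁ : E3), mem_orth v₁ x⟩
  let ext : ((ℝ ∙ (v₁ : E3))ᗮ → ℝ≥0∞) → E → ℝ≥0∞ := fun g x => g (P (e.symm x))
  have hext : ∀ K₀ : Set E3, ext (Pool.Agent.H63.XRSNoTwoSuccessive.xray v₁ K₀) =
      xray u₁ (e '' K₀) := by
    intro K₀
    funext x
    have h1 : xray (v₁ : E3) K₀ (e.symm x - ⟪(v₁ : E3), e.symm x⟫ • (v₁ : E3)) =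
        xray (v₁ : E3) K₀ (e.symm x) := by
      have h2 := xray_add (v₁ : E3) K₀ (e.symm x) (-⟪(v₁ : E3), e.symm x⟫)
      rw [neg_smul, ← sub_eq_add_neg] at h2
      exact h2
    have h3 := xray_image' e (v₁ : E3) K₀ x
    rw [hv₁] at h3
    rw [h3, ← h1]
    rfl
  obtain ⟨K₀, K₀', h1, h2, h3, h4, h5, h6, h7⟩ :=
    Pool.Agent.H63.XRSNoTwoSuccessive.result v₁ (fun g => ⟨e.symm (s (ext g)), by simp [hs]⟩)
  refine ⟨e '' K₀, e '' K₀', body_image e h1, body_image e h2, ellipsoid_image e h3,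
    ellipsoid_image e h4, fun h => h5 (e.injective.image_injective h), ?_, ?_⟩
  · rw [← hext, ← hext, h6]
  · have h8 : xray (e.symm (s (xray u₁ (e '' K₀)))) K₀' =
        xray (e.symm (s (xray u₁ (e '' K₀)))) K₀ := by
      rw [← hext]
      exact (xray_eq_iff ⟨e.symm (s (ext (Pool.Agent.H63.XRSNoTwoSuccessive.xray v₁ K₀))),
        by simp [hs]⟩ K₀ K₀').2 (fun x => congrFun h7 x)
    funext y
    have h9 := xray_image' e (e.symm (s (xray u₁ (e '' K₀)))) K₀' y
    have h10 := xray_image' e (e.symm (s (xray u₁ (e '' K₀)))) K₀ y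
    rw [e.apply_symm_apply] at h9 h10
    rw [h9, h10, h8]

end XRS
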