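import Mathlib

/-!
# Definitions: convex bodies and their X-rays
-/

set_option autoImplicit false

open MeasureTheory Metric
open scoped ENNReal

namespace XRS

variable {E : Type} [NormedAddCommGroup E] [InnerProductSpace ℝ E]

/-- A convex body: a compact convex set with nonempty interior. -/
def IsConvexBody (K : Set E) : Prop :=
  Convex ℝ K ∧ IsCompact K ∧ (interior K).Nonempty

/-- An ellipsoid centred at the origin: the image of the closed unit ball under an invertible
linear map. -/
def IsEllipsoid (K : Set E) : Prop :=
  ∃ L : E ≃L[ℝ] E, K = L '' closedBall 0 1

/-- The X-ray of `K` in the direction of the unit vector `u`: its value at `x` is the length of the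
intersection of `K` with the line through `x` parallel to `u`.  (This is constant along these lines,
so it is the same as its restriction to the plane orthogonal to `u`.) -/
noncomputable def xray (u : E) (K : Set E) (x : E) : ℝ≥0∞ := volume {t : ℝ | x + t • u ∈ K}

/-- `K` is verified by its X-rays in the `m` directions `u i`: no other convex body has the same
`m` X-rays. -/
def Verifies {m : ℕ} (u : Fin m → E) (K : Set E) : Prop :=
  ∀ K' : Set E, IsConvexBody K' → (∀ i, xray (u i) K' = xray (u i) K) → K' = K

end XRS
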